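import Mathlib

/-!
# Reduction of the inequality with `H` to a thin set of triples: elementary part
-/

namespace Pool.Agent.helper69.AT

open Finset

/-- The radical of `n`: the product of the distinct primes dividing `n`. -/
def rad (n : ℕ) : ℕ := ∏ p ∈ n.primeFactors, p

/-- `H n = rad n / (log (rad n)) ^ ω(n)`. -/
noncomputable def H (n : ℕ) : ℝ := (rad n : ℝ) / Real.log (rad n) ^ n.primeFactors.card

/-- `(a, b, c)` is an admissible triple: positive, `a + b = c`, `gcd (a, b, c) = 1`. -/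
def Adm (a b c : ℕ) : Prop := 0 < a ∧ 0 < b ∧ a + b = c ∧ Nat.gcd (Nat.gcd a b) c = 1

/-- The thin set of the admissible triples `(x ^ n, b, y ^ n)` such that `N` divides `b`, `b` is at
most `δ` times the third term, and the radical of the product of the three terms is at most the
`(1 + δ)`-th power of the third term. -/
def Thin (n N : ℕ) (δ : ℝ) (a b c : ℕ) : Prop :=
  Adm a b c ∧ (∃ x, a = x ^ n) ∧ (∃ y, c = y ^ n) ∧ N ∣ b ∧ (b : ℝ) ≤ δ * c ∧
    (rad (a * b * c) : ℝ) ≤ (c : ℝ) ^ (1 + δ)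

lemma rad_pos (n : ℕ) : 0 < rad n :=
  Finset.prod_pos fun _ hp => (Nat.prime_of_mem_primeFactors hp).pos

lemma rad_le {n : ℕ} (hn : n ≠ 0) : rad n ≤ n :=
  Nat.le_of_dvd (Nat.pos_of_ne_zero hn) (Nat.prod_primeFactors_dvd n)

lemma rad_mono {m n : ℕ} (h : m.primeFactors ⊆ n.primeFactors) : rad m ≤ rad n :=
  Finset.prod_le_prod_of_subset_of_one_le' h
    fun _ hp _ => (Nat.prime_of_mem_primeFactors hp).one_le

lemma rad_congr {m n : ℕ} (h : m.primeFactors = n.primeFactors) : rad m = rad n := by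
  unfold rad; rw [h]

lemma rad_mul_le {m n : ℕ} (hm : m ≠ 0) (hn : n ≠ 0) : rad (m * n) ≤ rad m * rad n := by
  unfold rad
  rw [Nat.primeFactors_mul hm hn, ← Finset.prod_union_inter]
  exact Nat.le_mul_of_pos_right _ (Finset.prod_pos fun p hp =>
    (Nat.prime_of_mem_primeFactors (Finset.mem_inter.1 hp).1).pos)

/-- The factor `(v ^ (2j) - u ^ (2j)) / (v ^ 2 - u ^ 2)`. -/
lemma geom (u v j : ℕ) (huv : u ≤ v) :
    ∃ Q : ℕ, v ^ (2 * j) - u ^ (2 * j) = (v ^ 2 - u ^ 2) * Q ∧ Q ≤ j * v ^ (2 * (j - 1)) := by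
  refine ⟨∑ i ∈ range j, (v ^ 2) ^ i * (u ^ 2) ^ (j - 1 - i), ?_, ?_⟩
  · rw [pow_mul, pow_mul, mul_comm]
    exact (geom_sum₂_mul_of_ge (Nat.pow_le_pow_left huv 2) j).symm
  · calc ∑ i ∈ range j, (v ^ 2) ^ i * (u ^ 2) ^ (j - 1 - i)
        ≤ ∑ i ∈ range j, v ^ (2 * (j - 1)) := by
          apply sum_le_sum
          intro i hi
          have hij : i < j := mem_range.1 hi
          calc (v ^ 2) ^ i * (u ^ 2) ^ (j - 1 - i)
              ≤ (v ^ 2) ^ i * (v ^ 2) ^ (j - 1 - i) := by gcongr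
            _ = v ^ (2 * (j - 1)) := by
                rw [← pow_add, ← pow_mul]
                congr 2
                omega
      _ = j * v ^ (2 * (j - 1)) := by simp

/-- The bound for the radical of the image triple. -/
lemma rad_ABC {u v m j : ℕ} (hu : 0 < u) (huv : u < v) (hj : 0 < j) (hm : m = 2 * j) :
    rad (u ^ m * (v ^ m - u ^ m) * v ^ m) ≤ j * rad (v * (v ^ 2 - u ^ 2)) * v ^ (m - 1) := by
  obtain ⟨Q, hQ, hQle⟩ := geom u v j huv.le
  have hv : 0 < v := by omega
  have hD : 0 < v ^ 2 - u ^ 2 := Nat.sub_pos_of_lt (Nat.pow_lt_pow_left huv two_ne_zero)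
  have hm0 : m ≠ 0 := by omega
  have hB : 0 < v ^ m - u ^ m := Nat.sub_pos_of_lt (Nat.pow_lt_pow_left huv hm0)
  have hBQ : v ^ m - u ^ m = (v ^ 2 - u ^ 2) * Q := by rw [hm]; exact hQ
  have hQ0 : Q ≠ 0 := by
    rintro rfl
    rw [mul_zero] at hBQ
    omega
  have e1 : rad (u ^ m * (v ^ m - u ^ m) * v ^ m) = rad (u * (v * (v ^ 2 - u ^ 2)) * Q) := by
    apply rad_congr
    rw [hBQ, Nat.primeFactors_mul (by positivity) (by positivity),
      Nat.primeFactors_mul (by positivity) (by positivity),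
      Nat.primeFactors_mul (by positivity) (by positivity),
      Nat.primeFactors_mul (by positivity) (by positivity),
      Nat.primeFactors_mul (by positivity) (by positivity),
      Nat.primeFactors_mul (by positivity) (by positivity),
      Nat.primeFactors_pow _ hm0, Nat.primeFactors_pow _ hm0]
    ext p
    simp only [Finset.mem_union]
    tauto
  rw [e1]
  calc rad (u * (v * (v ^ 2 - u ^ 2)) * Q)
      ≤ rad (u * (v * (v ^ 2 - u ^ 2))) * rad Q := rad_mul_le (by positivity) hQ0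
    _ ≤ (rad u * rad (v * (v ^ 2 - u ^ 2))) * rad Q := by
        gcongr
        exact rad_mul_le (by positivity) (by positivity)
    _ ≤ (v * rad (v * (v ^ 2 - u ^ 2))) * (j * v ^ (2 * (j - 1))) := by
        gcongr
        · exact (rad_le (by omega)).trans huv.le
        · exact (rad_le hQ0).trans hQle
    _ = j * rad (v * (v ^ 2 - u ^ 2)) * (v ^ (2 * (j - 1)) * v) := by ring
    _ = j * rad (v * (v ^ 2 - u ^ 2)) * v ^ (m - 1) := by
        rw [← pow_succ]
        congr 2
        omega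

/-- The congruence condition. -/
lemma dvd_ABC {N m u v : ℕ} (hN : 0 < N) (hm : 0 < m) (hNm : N * Nat.totient N ∣ m)
    (huv : u ≤ v) : N ∣ u ^ m * (v ^ m - u ^ m) * v ^ m := by
  have hmN : N ≤ m := Nat.le_of_dvd hm (dvd_trans (dvd_mul_right _ _) hNm)
  rw [Nat.dvd_iff_prime_pow_dvd_dvd]
  intro p k hp hk
  have hkm : k ≤ m := by
    have h1 : p ^ k ≤ N := Nat.le_of_dvd hN hk
    have h2 : k < p ^ k := Nat.lt_pow_self hp.one_lt
    omega
  by_cases hpu : p ∣ u
  · exact dvd_mul_of_dvd_left (dvd_mul_of_dvd_left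
      ((pow_dvd_pow_of_dvd hpu k).trans (pow_dvd_pow u hkm)) _) _
  by_cases hpv : p ∣ v
  · exact dvd_mul_of_dvd_right ((pow_dvd_pow_of_dvd hpv k).trans (pow_dvd_pow v hkm)) _
  have hφ : Nat.totient (p ^ k) ∣ m :=
    ((Nat.totient_dvd_of_dvd hk).trans (dvd_mul_left _ _)).trans hNm
  obtain ⟨r, hr⟩ := hφ
  have key : ∀ x : ℕ, ¬ p ∣ x → x ^ m ≡ 1 [MOD p ^ k] := by
    intro x hx
    have hc : Nat.Coprime x (p ^ k) := Nat.Coprime.pow_right k ((hp.coprime_iff_not_dvd.2 hx).symm)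
    have := (Nat.ModEq.pow_totient hc).pow r
    rw [one_pow, ← pow_mul, ← hr] at this
    exact this
  have h := (key u hpu).trans (key v hpv).symm
  have h' : p ^ k ∣ v ^ m - u ^ m := (Nat.modEq_iff_dvd' (Nat.pow_le_pow_left huv m)).1 h
  exact dvd_mul_of_dvd_left (dvd_mul_of_dvd_right h' _) _

/-- The passage from `(a, b, c)` to the coprime pair `(u, v)`. -/
lemma exists_uv {a b c : ℕ} (hb : 0 < b) (hba : b < a) (hc : a + b = c) (hab : Nat.Coprime a b) :
    ∃ u v : ℕ, 0 < u ∧ u < v ∧ Nat.Coprime u v ∧ c ≤ 2 * v ∧ v ≤ c ∧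
      b ∣ v ^ 2 - u ^ 2 ∧ u * c + 2 * (v * b) = v * c ∧
      (v * (v ^ 2 - u ^ 2)).primeFactors ⊆ (a * b * c).primeFactors ∧
      (a * b * c).primeFactors ⊆ (u * (v ^ 2 - u ^ 2) * v).primeFactors := by
  obtain ⟨t, rfl⟩ : ∃ t, a = t + b := ⟨a - b, by omega⟩
  have ht : 0 < t := by omega
  have hcop : Nat.Coprime t b := by rwa [Nat.coprime_add_self_left] at hab
  subst hc
  rcases Nat.even_or_odd' t with ⟨d, hd | hd⟩
  · -- `t = 2 d`
    have hd0 : 0 < d := by omega
    have hdb : Nat.Coprime d b := by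
      rw [hd] at hcop
      exact hcop.coprime_dvd_left (dvd_mul_left _ _)
    have hbodd : b % 2 = 1 := by
      by_contra h
      have h2 : 2 ∣ b := by omega
      have h3 : 2 ∣ t := by omega
      have := Nat.dvd_gcd h3 h2
      rw [Nat.Coprime] at hcop
      rw [hcop] at this
      omega
    have hdiff : (b + d) ^ 2 - d ^ 2 = (t + b) * b := by
      rw [hd]
      apply Nat.sub_eq_of_eq_add
      ring
    refine ⟨d, b + d, hd0, by omega, ?_, by omega, by omega, ?_, ?_, ?_, ?_⟩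
    · rw [Nat.coprime_add_self_right]; exact hdb
    · rw [hdiff]; exact dvd_mul_left _ _
    · rw [hd]; ring
    · rw [hdiff]
      apply Nat.primeFactors_mono _ (by positivity)
      refine ⟨2, ?_⟩
      rw [hd]; ring
    · rw [hdiff]
      intro p hp
      have hpp := Nat.prime_of_mem_primeFactors hp
      have hpd := Nat.dvd_of_mem_primeFactors hp
      rw [Nat.mem_primeFactors]
      refine ⟨hpp, ?_, by positivity⟩
      have e : (t + b) * b * (t + b + b) = 2 * ((t + b) * b * (b + d)) := by rw [hd]; ring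
      rw [e, hpp.dvd_mul] at hpd
      rcases hpd with h | h
      · have hp2 : p = 2 := (Nat.prime_dvd_prime_iff_eq hpp Nat.prime_two).1 h
        rw [hp2]
        rcases Nat.even_or_odd' d with ⟨f, hf | hf⟩
        · exact dvd_mul_of_dvd_left (dvd_mul_of_dvd_left ⟨f, hf⟩ _) _
        · apply dvd_mul_of_dvd_right
          omega
      · refine dvd_trans h ⟨d, ?_⟩
        ring
  · -- `t` odd
    have hdiff : (t + 2 * b) ^ 2 - t ^ 2 = 4 * ((t + b) * b) := by
      apply Nat.sub_eq_of_eq_add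
      ring
    have e2 : t + b + b = t + 2 * b := by ring
    rw [e2]
    refine ⟨t, t + 2 * b, ht, by omega, ?_, by omega, le_refl _, ?_, ?_, ?_, ?_⟩
    · have h2 : Nat.Coprime t 2 := by
        rw [Nat.coprime_comm, Nat.Prime.coprime_iff_not_dvd Nat.prime_two]
        omega
      rw [Nat.coprime_self_add_right]
      exact h2.mul_right hcop
    · rw [hdiff]; exact ⟨4 * (t + b), by ring⟩
    · ring
    · rw [hdiff]
      intro p hp
      have hpp := Nat.prime_of_mem_primeFactors hp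
      have hpd := Nat.dvd_of_mem_primeFactors hp
      rw [Nat.mem_primeFactors]
      refine ⟨hpp, ?_, by positivity⟩
      have e : (t + 2 * b) * (4 * ((t + b) * b)) = 2 * 2 * ((t + b) * b * (t + 2 * b)) := by ring
      rw [e, hpp.dvd_mul] at hpd
      rcases hpd with h | h
      · have hp2 : p = 2 := by
          rw [hpp.dvd_mul] at h
          exact (Nat.prime_dvd_prime_iff_eq hpp Nat.prime_two).1 (h.elim id id)
        rw [hp2]
        apply dvd_mul_of_dvd_left
        rcases Nat.even_or_odd' b with ⟨f, hf | hf⟩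
        · exact dvd_mul_of_dvd_right ⟨f, hf⟩ _
        · apply dvd_mul_of_dvd_left
          omega
      · exact h
    · rw [hdiff]
      apply Nat.primeFactors_mono _ (by positivity)
      refine ⟨4 * t, ?_⟩
      ring

lemma coprime_of_adm {a b c : ℕ} (h : Adm a b c) : Nat.Coprime a b := by
  obtain ⟨-, -, hc, hg⟩ := h
  have h1 : Nat.gcd a b ∣ Nat.gcd (Nat.gcd a b) c := by
    refine Nat.dvd_gcd dvd_rfl ?_
    rw [← hc]
    exact dvd_add (Nat.gcd_dvd_left _ _) (Nat.gcd_dvd_right _ _)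
  rw [hg] at h1
  exact Nat.dvd_one.1 h1

lemma adm_of_coprime {a b c : ℕ} (ha : 0 < a) (hb : 0 < b) (hc : a + b = c)
    (h : Nat.Coprime a b) : Adm a b c := by
  refine ⟨ha, hb, hc, ?_⟩
  rw [Nat.Coprime] at h
  rw [h, Nat.gcd_one_left]

lemma adm_swap {a b c : ℕ} (h : Adm a b c) : Adm b a c := by
  obtain ⟨ha, hb, hc, hg⟩ := h
  exact ⟨hb, ha, by omega, by rw [Nat.gcd_comm b a]; exact hg⟩

lemma adm_prod_ne_zero {a b c : ℕ} (h : Adm a b c) : a * b * c ≠ 0 := by
  obtain ⟨ha, hb, hc, hg⟩ := h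
  have : 0 < c := by omega
  positivity

/-- An admissible triple other than `(1, 1, 2)` has radical at least `3`. -/
lemma three_le_rad {a b c : ℕ} (h : Adm a b c) (hab : a ≠ b) : 3 ≤ rad (a * b * c) := by
  wlog hba : b < a generalizing a b
  · have := this (adm_swap h) hab.symm (by omega)
    rwa [mul_comm b a] at this
  have hM := adm_prod_ne_zero h
  have hcop := coprime_of_adm h
  obtain ⟨ha, hb, hc, hg⟩ := h
  have hac : Nat.Coprime a c := by
    rw [← hc, Nat.coprime_self_add_right]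
    exact hcop
  obtain ⟨p, hp, hpa⟩ := Nat.exists_prime_and_dvd (show a ≠ 1 by omega)
  obtain ⟨q, hq, hqc⟩ := Nat.exists_prime_and_dvd (show c ≠ 1 by omega)
  have hpq : p ≠ q := by
    rintro rfl
    have := Nat.dvd_gcd hpa hqc
    rw [Nat.Coprime] at hac
    rw [hac] at this
    exact hp.one_lt.ne' (Nat.dvd_one.1 this)
  have hsub2 : ({p, q} : Finset ℕ) ⊆ (a * b * c).primeFactors := by
    intro x hx
    rw [Finset.mem_insert, Finset.mem_singleton] at hx
    rw [Nat.mem_primeFactors]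
    rcases hx with rfl | rfl
    · exact ⟨hp, dvd_mul_of_dvd_left (dvd_mul_of_dvd_left hpa _) _, hM⟩
    · exact ⟨hq, dvd_mul_of_dvd_right hqc _, hM⟩
  have h6 : ∏ x ∈ ({p, q} : Finset ℕ), x ≤ rad (a * b * c) :=
    Finset.prod_le_prod_of_subset_of_one_le' hsub2
      fun _ hp _ => (Nat.prime_of_mem_primeFactors hp).one_le
  rw [Finset.prod_pair hpq] at h6
  have := hp.two_le
  have := hq.two_le
  nlinarith

/-- Comparison of the values of `H`. -/
lemma H_compare {M P : ℕ} (hsub : M.primeFactors ⊆ P.primeFactors) (h2 : 2 ≤ rad M)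
    (h3 : 3 ≤ rad P) {κ : ℝ} (hnum : (rad P : ℝ) ≤ κ * rad M) : H P ≤ κ * H M := by
  have hRR : rad M ≤ rad P := rad_mono hsub
  have hcard : M.primeFactors.card ≤ P.primeFactors.card := Finset.card_le_card hsub
  have hlogM : 0 < Real.log (rad M) := Real.log_pos (by exact_mod_cast h2)
  have hlog1 : 1 ≤ Real.log (rad P) := by
    rw [Real.le_log_iff_exp_le (by exact_mod_cast rad_pos P)]
    have : (3 : ℝ) ≤ rad P := by exact_mod_cast h3
    linarith [Real.exp_one_lt_d9]
  have hlogle : Real.log (rad M) ≤ Real.log (rad P) :=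
    Real.log_le_log (by exact_mod_cast rad_pos M) (by exact_mod_cast hRR)
  have hden : Real.log (rad M) ^ M.primeFactors.card ≤ Real.log (rad P) ^ P.primeFactors.card :=
    (pow_le_pow_left₀ hlogM.le hlogle _).trans (pow_le_pow_right₀ hlog1 hcard)
  unfold H
  calc (rad P : ℝ) / Real.log (rad P) ^ P.primeFactors.card
      ≤ (κ * rad M) / Real.log (rad M) ^ M.primeFactors.card := by
        have hk : 0 ≤ κ * rad M := le_trans (Nat.cast_nonneg _) hnum
        gcongr
    _ = κ * ((rad M : ℝ) / Real.log (rad M) ^ M.primeFactors.card) := by ring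

lemma H_nonneg (M : ℕ) : 0 ≤ H M := by
  unfold H
  have h3 : 0 ≤ Real.log (rad M) := Real.log_natCast_nonneg _
  positivity

/-- `H` is positive at the product of an admissible triple. -/
lemma H_pos {M : ℕ} (h : 2 ≤ rad M) : 0 < H M := by
  unfold H
  have h1 : 0 < Real.log (rad M) := Real.log_pos (by exact_mod_cast h)
  have h2 : (0 : ℝ) < rad M := by exact_mod_cast rad_pos M
  positivity

/-- The image triple `(u ^ m, v ^ m - u ^ m, v ^ m)` is admissible. -/
lemma adm_image {u v m : ℕ} (hu : 0 < u) (huv : u < v) (hcop : Nat.Coprime u v) (hm : m ≠ 0) :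
    Adm (u ^ m) (v ^ m - u ^ m) (v ^ m) := by
  have hlt : u ^ m < v ^ m := Nat.pow_lt_pow_left huv hm
  refine ⟨by positivity, Nat.sub_pos_of_lt hlt, by omega, ?_⟩
  have h2 : Nat.Coprime (u ^ m) (v ^ m) := Nat.Coprime.pow _ _ hcop
  exact h2.coprime_dvd_left (Nat.gcd_dvd_left _ _)

/-- Comparison of `H` at the image triple with `H` at the given triple. -/
lemma H_ABC {M u v m j : ℕ} (hu : 0 < u) (huv : u < v) (hcop : Nat.Coprime u v)
    (hj : 0 < j) (hm : m = 2 * j)
    (h1 : (v * (v ^ 2 - u ^ 2)).primeFactors ⊆ M.primeFactors)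
    (h2 : M.primeFactors ⊆ (u * (v ^ 2 - u ^ 2) * v).primeFactors) (hM2 : 2 ≤ rad M) :
    H (u ^ m * (v ^ m - u ^ m) * v ^ m) ≤ (j : ℝ) * (v : ℝ) ^ (m - 1) * H M := by
  have hv : 0 < v := by omega
  have hm0 : m ≠ 0 := by omega
  have hadm := adm_image hu huv hcop hm0
  have hP0 := adm_prod_ne_zero hadm
  have hDB : v ^ 2 - u ^ 2 ∣ v ^ m - u ^ m := by
    rw [hm, pow_mul, pow_mul]
    exact Nat.sub_dvd_pow_sub_pow _ _ _
  have hsub : M.primeFactors ⊆ (u ^ m * (v ^ m - u ^ m) * v ^ m).primeFactors := by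
    refine h2.trans (Nat.primeFactors_mono ?_ hP0)
    exact mul_dvd_mul (mul_dvd_mul (dvd_pow_self u hm0) hDB) (dvd_pow_self v hm0)
  have hne : u ^ m ≠ v ^ m - u ^ m := by
    -- otherwise `v ^ m = 2 u ^ m`, impossible for coprime `u < v` and `m` even
    intro h
    have hlt : u ^ m < v ^ m := Nat.pow_lt_pow_left huv hm0
    have h5 : v ^ m = 2 * u ^ m := by omega
    have h6 : Nat.Coprime (u ^ m) (v ^ m) := Nat.Coprime.pow _ _ hcop
    have h7 : u ^ m ∣ Nat.gcd (u ^ m) (v ^ m) := Nat.dvd_gcd dvd_rfl ⟨2, by rw [h5]; ring⟩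
    rw [Nat.Coprime] at h6
    rw [h6, Nat.dvd_one] at h7
    rw [h7, mul_one] at h5
    have h8 : 2 ≤ v := by omega
    have h9 : 2 ^ 2 ≤ v ^ m :=
      (Nat.pow_le_pow_left h8 2).trans (Nat.pow_le_pow_right (by omega) (by omega))
    omega
  refine H_compare hsub hM2 (three_le_rad hadm hne) ?_
  have h7 : rad (u ^ m * (v ^ m - u ^ m) * v ^ m) ≤
      j * rad (v * (v ^ 2 - u ^ 2)) * v ^ (m - 1) := rad_ABC hu huv hj hm
  have h8 : rad (v * (v ^ 2 - u ^ 2)) ≤ rad M := rad_mono h1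
  have h9 : rad (u ^ m * (v ^ m - u ^ m) * v ^ m) ≤ j * rad M * v ^ (m - 1) :=
    h7.trans (by gcongr)
  calc (rad (u ^ m * (v ^ m - u ^ m) * v ^ m) : ℝ) ≤ ((j * rad M * v ^ (m - 1) : ℕ) : ℝ) := by
        exact_mod_cast h9
    _ = (j : ℝ) * (v : ℝ) ^ (m - 1) * rad M := by push_cast; ring

end Pool.Agent.helper69.AT
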