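import Pool.Agent.helper69.AT.Basic

/-!
# The map of degree six

`4 (a² + ab + b²)³ = ((a - b)(a + 2b)(2a + b))² + 27 (abc)²` for `c = a + b`.
-/

namespace Pool.Agent.helper69.AT

open Finset

lemma coprime_p {a b c : ℕ} (hc : a + b = c) (hab : Nat.Coprime a b) :
    Nat.Coprime (a ^ 2 + a * b + b ^ 2) (a * b * c) := by
  by_contra hcon
  obtain ⟨q, hq, h1, h2⟩ := Nat.Prime.not_coprime_iff_dvd.1 hcon
  have hnot : ¬ (q ∣ a ∧ q ∣ b) := by
    rintro ⟨h3, h4⟩
    have := Nat.dvd_gcd h3 h4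
    rw [Nat.Coprime] at hab
    rw [hab] at this
    exact hq.one_lt.ne' (Nat.dvd_one.1 this)
  have key : q ∣ a * b → False := by
    intro h
    rcases (hq.dvd_mul.1 h) with h3 | h3
    · have h4 : q ∣ a ^ 2 + a * b := by
        rw [show a ^ 2 + a * b = a * (a + b) by ring]
        exact dvd_mul_of_dvd_left h3 _
      have h5 : q ∣ b ^ 2 := (Nat.dvd_add_right h4).1 h1
      exact hnot ⟨h3, hq.dvd_of_dvd_pow h5⟩
    · have h4 : q ∣ a * b + b ^ 2 := by
        rw [show a * b + b ^ 2 = b * (a + b) by ring]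
        exact dvd_mul_of_dvd_left h3 _
      have h5 : q ∣ a ^ 2 := by
        rw [add_assoc] at h1
        exact (Nat.dvd_add_left h4).1 h1
      exact hnot ⟨hq.dvd_of_dvd_pow h5, h3⟩
  rcases (hq.dvd_mul.1 h2) with h | h
  · exact key h
  · have h6 : q ∣ c ^ 2 := dvd_pow h two_ne_zero
    have h7 : c ^ 2 = (a ^ 2 + a * b + b ^ 2) + a * b := by rw [← hc]; ring
    rw [h7] at h6
    exact key ((Nat.dvd_add_right h1).1 h6)

/-- The map of degree six. -/
lemma jmap {a b c : ℕ} (h : Adm a b c) (hba : b < a) :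
    ∃ A B C : ℕ, Adm A B C ∧ (c : ℝ) ^ 6 ≤ 64 * C ∧
      H (A * B * C) ≤ 24 * (c : ℝ) ^ 5 * H (a * b * c) ∧
      (∀ N, 108 * N ∣ a * b * c → N ∣ B) ∧
      (∀ δ : ℝ, 0 ≤ δ → (b : ℝ) ≤ δ * c → (B : ℝ) ≤ 16 * δ ^ 2 * C) := by
  have hab := coprime_of_adm h
  have hM0 := adm_prod_ne_zero h
  have hMrad := three_le_rad h hba.ne'
  have hadm := h
  obtain ⟨ha, hb, hc, -⟩ := h
  set M := a * b * c with hM
  set p := a ^ 2 + a * b + b ^ 2 with hp
  have hpM : Nat.Coprime p M := coprime_p hc hab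
  obtain ⟨t, ht⟩ : ∃ t, a = t + b := ⟨a - b, by omega⟩
  have ht0 : 0 < t := by omega
  set D := t * (a + 2 * b) * (2 * a + b) with hD
  have hD0 : 0 < D := by positivity
  have hp0 : 0 < p := by positivity
  have hMpos : 0 < M := Nat.pos_of_ne_zero hM0
  -- the identity
  have hid : D ^ 2 + 27 * M ^ 2 = 4 * p ^ 3 := by
    rw [hD, hM, hp, ← hc, ht]
    ring
  set g := Nat.gcd (D ^ 2) (27 * M ^ 2) with hg
  have hg0 : 0 < g := Nat.gcd_pos_of_pos_left _ (by positivity)
  obtain ⟨A, hA⟩ : g ∣ D ^ 2 := Nat.gcd_dvd_left _ _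
  obtain ⟨B, hB⟩ : g ∣ 27 * M ^ 2 := Nat.gcd_dvd_right _ _
  have hC : 4 * p ^ 3 = g * (A + B) := by rw [← hid, hA, hB]; ring
  have hA0 : 0 < A := by
    rcases Nat.eq_zero_or_pos A with h0 | h0
    · rw [h0, mul_zero] at hA
      have : 0 < D ^ 2 := by positivity
      omega
    · exact h0
  have hB0 : 0 < B := by
    rcases Nat.eq_zero_or_pos B with h0 | h0
    · rw [h0, mul_zero] at hB
      have : 0 < 27 * M ^ 2 := by positivity
      omega
    · exact h0
  have hAB : Nat.Coprime A B := by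
    have h1 : Nat.gcd (g * A) (g * B) = g * Nat.gcd A B := Nat.gcd_mul_left _ _ _
    rw [← hA, ← hB, ← hg] at h1
    have h2 : g * 1 = g * Nat.gcd A B := by rw [mul_one]; exact h1
    exact (Nat.eq_of_mul_eq_mul_left hg0 h2).symm
  have hadm' : Adm A B (A + B) := adm_of_coprime hA0 hB0 rfl hAB
  -- `g ∣ 108`
  have hg108 : g ∣ 108 := by
    have h1 : g ∣ 108 * p ^ 3 := by
      have : g ∣ 4 * p ^ 3 := ⟨_, hC⟩
      exact this.trans ⟨27, by ring⟩
    have h2 : g ∣ 108 * M ^ 2 := by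
      have : g ∣ 27 * M ^ 2 := ⟨_, hB⟩
      exact this.trans ⟨4, by ring⟩
    have h3 := Nat.dvd_gcd h1 h2
    rw [Nat.gcd_mul_left, Nat.Coprime.gcd_eq_one (Nat.Coprime.pow 3 2 hpM), mul_one] at h3
    exact h3
  have hgle : g ≤ 108 := Nat.le_of_dvd (by norm_num) hg108
  -- `A ≠ B` is not needed: the radical of the image is at least that of `M`
  have hsub : M.primeFactors ⊆ (A * B * (A + B)).primeFactors := by
    intro q hq
    have hqp := Nat.prime_of_mem_primeFactors hq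
    have hqM := Nat.dvd_of_mem_primeFactors hq
    rw [Nat.mem_primeFactors]
    refine ⟨hqp, ?_, adm_prod_ne_zero hadm'⟩
    by_cases hq2 : q = 2
    · rw [hq2]
      rcases Nat.even_or_odd' A with ⟨r, hr | hr⟩
      · exact dvd_mul_of_dvd_left (dvd_mul_of_dvd_left ⟨r, hr⟩ _) _
      · rcases Nat.even_or_odd' B with ⟨s, hs | hs⟩
        · exact dvd_mul_of_dvd_left (dvd_mul_of_dvd_right ⟨s, hs⟩ _) _
        · exact dvd_mul_of_dvd_right ⟨r + s + 1, by omega⟩ _
    · apply dvd_mul_of_dvd_left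
      apply dvd_mul_of_dvd_right
      by_contra hqB
      have hcopB : Nat.Coprime q B := (hqp.coprime_iff_not_dvd).2 hqB
      by_cases hq3 : q = 3
      · have h1 : 3 ^ 5 ∣ g * B := by
          rw [← hB]
          obtain ⟨r, hr⟩ := hqM
          rw [hq3] at hr
          exact ⟨r ^ 2, by rw [hr]; ring⟩
        have h2 : Nat.Coprime (3 ^ 5) B := by
          rw [hq3] at hcopB
          exact Nat.Coprime.pow_left 5 hcopB
        have h3 : 3 ^ 5 ∣ g := h2.dvd_of_dvd_mul_right h1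
        have h4 := Nat.le_of_dvd hg0 h3
        norm_num at h4
        omega
      · have h1 : q ∣ g * B := by
          rw [← hB]
          exact dvd_mul_of_dvd_right (dvd_pow hqM two_ne_zero) _
        have h3 : q ∣ 108 := (hcopB.dvd_of_dvd_mul_right h1).trans hg108
        rw [show 108 = 2 ^ 2 * 3 ^ 3 by norm_num, hqp.dvd_mul] at h3
        rcases h3 with h4 | h4
        · exact hq2 ((Nat.prime_dvd_prime_iff_eq hqp Nat.prime_two).1 (hqp.dvd_of_dvd_pow h4))
        · exact hq3 ((Nat.prime_dvd_prime_iff_eq hqp Nat.prime_three).1 (hqp.dvd_of_dvd_pow h4))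
  have hcpos : 0 < c := by omega
  refine ⟨A, B, A + B, hadm', ?_, ?_, ?_, ?_⟩
  · -- `c ^ 6 ≤ 64 C`
    have h1 : 3 * c ^ 2 ≤ 4 * p := by
      rw [hp, ← hc, ht]
      nlinarith [sq_nonneg t]
    have h2 : (3 * c ^ 2) ^ 3 ≤ (4 * p) ^ 3 := Nat.pow_le_pow_left h1 3
    have h3 : 27 * c ^ 6 ≤ 16 * (4 * p ^ 3) := by
      calc 27 * c ^ 6 = (3 * c ^ 2) ^ 3 := by ring
        _ ≤ (4 * p) ^ 3 := h2
        _ = 16 * (4 * p ^ 3) := by ring
    rw [hC] at h3
    have h4 : g * (A + B) ≤ 108 * (A + B) := by gcongr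
    have h5 : c ^ 6 ≤ 64 * (A + B) := by omega
    exact_mod_cast h5
  · -- the comparison of `H`
    refine H_compare hsub (by omega) (hMrad.trans (rad_mono hsub)) ?_
    have hsub2 : (A * B * (A + B)).primeFactors ⊆ (D * (M * (6 * p))).primeFactors := by
      have h1 : A * B * (A + B) ∣ (D * (M * (6 * p))) ^ 3 := by
        have h2 : A * B * (A + B) ∣ D ^ 2 * (27 * M ^ 2) * (4 * p ^ 3) := by
          refine mul_dvd_mul (mul_dvd_mul ⟨g, ?_⟩ ⟨g, ?_⟩) ⟨g, ?_⟩
          · rw [hA]; ring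
          · rw [hB]; ring
          · rw [hC]; ring
        exact h2.trans ⟨2 * D * M, by ring⟩
      have h3 : (D * (M * (6 * p))) ^ 3 ≠ 0 := by positivity
      have h4 := Nat.primeFactors_mono h1 h3
      rwa [Nat.primeFactors_pow _ (by norm_num)] at h4
    have h5 : rad (A * B * (A + B)) ≤ 4 * c ^ 3 * (rad M * (6 * c ^ 2)) := by
      calc rad (A * B * (A + B)) ≤ rad (D * (M * (6 * p))) := rad_mono hsub2
        _ ≤ rad D * rad (M * (6 * p)) := rad_mul_le hD0.ne' (by positivity)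
        _ ≤ rad D * (rad M * rad (6 * p)) := by
            gcongr
            exact rad_mul_le hMpos.ne' (by positivity)
        _ ≤ 4 * c ^ 3 * (rad M * (6 * c ^ 2)) := by
            gcongr
            · refine (rad_le hD0.ne').trans ?_
              calc D ≤ c * (2 * c) * (2 * c) := by
                    rw [hD]
                    gcongr <;> omega
                _ = 4 * c ^ 3 := by ring
            · refine (rad_le (by positivity)).trans ?_
              have : p ≤ c ^ 2 := by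
                rw [hp, ← hc]
                nlinarith [Nat.zero_le (a * b)]
              omega
    calc (rad (A * B * (A + B)) : ℝ) ≤ ((4 * c ^ 3 * (rad M * (6 * c ^ 2)) : ℕ) : ℝ) := by
          exact_mod_cast h5
      _ = 24 * (c : ℝ) ^ 5 * rad M := by push_cast; ring
  · -- the congruence
    intro N hN
    obtain ⟨r, hr⟩ := hg108
    have h1 : g * (r * N) ∣ g * B := by
      rw [← hB, ← mul_assoc, ← hr]
      exact hN.trans ⟨27 * M, by ring⟩
    have h2 : r * N ∣ B := Nat.dvd_of_mul_dvd_mul_left hg0 h1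
    exact (dvd_mul_left N r).trans h2
  · -- the archimedean condition
    intro δ hδ hbδ
    have hcR : (0 : ℝ) < c := by exact_mod_cast hcpos
    have h1 : 3 * c ^ 2 ≤ 4 * p := by
      rw [hp, ← hc, ht]
      nlinarith [sq_nonneg t]
    have h2 : (3 * c ^ 2) ^ 3 ≤ (4 * p) ^ 3 := Nat.pow_le_pow_left h1 3
    have h3 : 27 * c ^ 6 ≤ 16 * (4 * p ^ 3) := by
      calc 27 * c ^ 6 = (3 * c ^ 2) ^ 3 := by ring
        _ ≤ (4 * p) ^ 3 := h2
        _ = 16 * (4 * p ^ 3) := by ring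
    rw [hC] at h3
    have h3R : 27 * (c : ℝ) ^ 6 ≤ 16 * ((g : ℝ) * ((A + B : ℕ) : ℝ)) := by exact_mod_cast h3
    have hMle : (M : ℝ) ≤ δ * (c : ℝ) ^ 3 := by
      have hac : (a : ℝ) ≤ c := by exact_mod_cast (show a ≤ c by omega)
      calc (M : ℝ) = (a : ℝ) * b * c := by rw [hM]; push_cast; ring
        _ ≤ (c : ℝ) * (δ * c) * c := by gcongr
        _ = δ * (c : ℝ) ^ 3 := by ring
    have h4 : (g : ℝ) * B ≤ (g : ℝ) * (16 * δ ^ 2 * ((A + B : ℕ) : ℝ)) := by
      calc (g : ℝ) * B = 27 * (M : ℝ) ^ 2 := by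
            have : ((27 * M ^ 2 : ℕ) : ℝ) = ((g * B : ℕ) : ℝ) := by rw [hB]
            push_cast at this
            linarith
        _ ≤ 27 * (δ * (c : ℝ) ^ 3) ^ 2 := by gcongr
        _ = δ ^ 2 * (27 * (c : ℝ) ^ 6) := by ring
        _ ≤ δ ^ 2 * (16 * ((g : ℝ) * ((A + B : ℕ) : ℝ))) := by gcongr
        _ = (g : ℝ) * (16 * δ ^ 2 * ((A + B : ℕ) : ℝ)) := by ring
    exact le_of_mul_le_mul_left h4 (by exact_mod_cast hg0)

end Pool.Agent.helper69.AT
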