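import Pool.Agent.helper69.AT.Main
import Pool.Agent.helper69.AT.JMap

/-!
# Reduction of the inequality with `H` to a thin set of triples: conclusion
-/

namespace Pool.Agent.helper69.AT

open Finset Filter Topology

/-- The inequality with exponent `1 + e` on the set `P` of triples. -/
def Ineq (P : ℕ → ℕ → ℕ → Prop) (e : ℝ) : Prop :=
  ∃ C : ℝ, ∀ a b c : ℕ, P a b c → (c : ℝ) < C * H (a * b * c) ^ (1 + e)

/-- The inequality on `P` reduces to the inequality on `P'`, with linear loss in the exponent. -/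
def Red (P' P : ℕ → ℕ → ℕ → Prop) : Prop :=
  ∃ m : ℕ, 0 < m ∧ ∀ e₀ : ℝ, 0 < e₀ → e₀ ≤ 1 → Ineq P' (e₀ / m) → Ineq P e₀

lemma Red.trans {P'' P' P : ℕ → ℕ → ℕ → Prop} (h' : Red P'' P') (h : Red P' P) : Red P'' P := by
  obtain ⟨m₁, hm₁, h1⟩ := h
  obtain ⟨m₂, hm₂, h2⟩ := h'
  refine ⟨m₁ * m₂, by positivity, fun e₀ he₀ he1 h3 => h1 e₀ he₀ he1 (h2 _ (by positivity) ?_ ?_)⟩
  · have : (1 : ℝ) ≤ m₁ := by exact_mod_cast hm₁
    rw [div_le_one (by positivity)]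
    linarith
  · rw [div_div]
    push_cast at h3
    exact h3

lemma H_two : 1 ≤ H 2 := by
  have hr2 : rad 2 = 2 := by
    unfold rad
    rw [Nat.Prime.primeFactors Nat.prime_two]
    simp
  unfold H
  rw [hr2, Nat.Prime.primeFactors Nat.prime_two]
  simp only [Finset.card_singleton, pow_one]
  rw [one_le_div (Real.log_pos (by norm_num))]
  have := Real.log_two_lt_d9
  norm_num at this ⊢
  linarith

/-- General form of a reduction step. -/
lemma red_of_map {P P' : ℕ → ℕ → ℕ → Prop} (m₀ : ℕ) (L : ℝ) (hL : 1 ≤ L)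
    (hP : ∀ a b c, P a b c → Adm a b c)
    (hmap : ∀ a b c, P a b c → a ≠ b → ∃ m : ℕ, 0 < m ∧ m ≤ m₀ ∧ ∃ A B C : ℕ, P' A B C ∧
      (c : ℝ) ^ m ≤ L * C ∧ H (A * B * C) ≤ L * (c : ℝ) ^ (m - 1) * H (a * b * c)) :
    Red P' P := by
  refine ⟨1 + 2 * m₀, by omega, fun e₀ he₀ he1 => ?_⟩
  have hden : 0 < ((1 + 2 * m₀ : ℕ) : ℝ) := by positivity
  set e : ℝ := e₀ / ((1 + 2 * m₀ : ℕ) : ℝ) with he
  have he0 : 0 < e := div_pos he₀ hden
  rintro ⟨C₀, hC₀⟩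
  set K : ℝ := max C₀ 1 * L with hK
  have hm1 : (1 : ℝ) ≤ max C₀ 1 := le_max_right _ _
  have hK1 : 1 ≤ K := by nlinarith
  have hKL : 0 ≤ (K * L) ^ (1 + e₀) := by positivity
  refine ⟨(K * L) ^ (1 + e₀) + 3, fun a b c h => ?_⟩
  have hadm := hP a b c h
  by_cases hab : a = b
  · -- `a = b = 1`
    have hcop := coprime_of_adm hadm
    obtain ⟨ha, hb, hc, -⟩ := hadm
    subst hab
    rw [Nat.coprime_self] at hcop
    subst hcop
    subst hc
    have h1 : 1 ≤ H (1 * 1 * (1 + 1)) ^ (1 + e₀) := Real.one_le_rpow H_two (by linarith)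
    push_cast
    nlinarith
  · obtain ⟨m, hm0, hmm, A, B, C, hP', hcC, hH⟩ := hmap a b c h hab
    have hrad := three_le_rad hadm hab
    have hH0 : 0 < H (a * b * c) := H_pos (by omega)
    have hc1 : (1 : ℝ) ≤ c := by
      obtain ⟨ha, hb, hc, -⟩ := hadm
      exact_mod_cast (show 1 ≤ c by omega)
    have hin : (c : ℝ) ^ m < K * H (A * B * C) ^ (1 + e) := by
      have h1 := hC₀ A B C hP'
      have h2 : 0 ≤ H (A * B * C) ^ (1 + e) := Real.rpow_nonneg (H_nonneg _) _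
      calc (c : ℝ) ^ m ≤ L * C := hcC
        _ < L * (C₀ * H (A * B * C) ^ (1 + e)) := by
            have : 0 < L := by linarith
            gcongr
        _ ≤ L * (max C₀ 1 * H (A * B * C) ^ (1 + e)) := by
            have : 0 ≤ L := by linarith
            gcongr
            exact le_max_left _ _
        _ = K * H (A * B * C) ^ (1 + e) := by rw [hK]; ring
    have hee : e * (1 + ((m : ℝ) - 1) * (1 + e₀)) ≤ e₀ := by
      have hmR : (m : ℝ) - 1 ≤ m₀ := by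
        have : (m : ℝ) ≤ m₀ := by exact_mod_cast hmm
        linarith
      have h1 : ((m : ℝ) - 1) * (1 + e₀) ≤ (m₀ : ℝ) * 2 := by
        have h0 : (0 : ℝ) ≤ (m₀ : ℝ) := Nat.cast_nonneg _
        have h2 : 0 ≤ 1 + e₀ := by linarith
        calc ((m : ℝ) - 1) * (1 + e₀) ≤ (m₀ : ℝ) * (1 + e₀) := by gcongr
          _ ≤ (m₀ : ℝ) * 2 := by gcongr; linarith
      calc e * (1 + ((m : ℝ) - 1) * (1 + e₀)) ≤ e * ((1 + 2 * m₀ : ℕ) : ℝ) := by
            gcongr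
            push_cast
            linarith
        _ = e₀ := by rw [he]; exact div_mul_cancel₀ _ hden.ne'
    have h6 := exponent_step hc1 hH0 hK1 hL hm0 he0 he₀ hee (H_nonneg _) hH hin
    have h7 : 0 < H (a * b * c) ^ (1 + e₀) := Real.rpow_pos_of_pos hH0 _
    nlinarith

/-- First intermediate set. -/
def T1 (N : ℕ) (δ : ℝ) (a b c : ℕ) : Prop :=
  Adm a b c ∧ N ∣ a * b * c ∧ ((min a b : ℕ) : ℝ) ≤ δ * c

/-- Second intermediate set. -/
def T2 (N : ℕ) (δ : ℝ) (a b c : ℕ) : Prop := Adm a b c ∧ N ∣ b ∧ (b : ℝ) ≤ δ * c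

/-- The archimedean condition, for one of two exponents. -/
lemma arch {u v m k : ℕ} {δ : ℝ} (hu : 0 < u) (huv : u < v)
    (hk : (1 - δ) ^ k ≤ δ) :
    ((v ^ m - u ^ m : ℕ) : ℝ) ≤ δ * ((v ^ m : ℕ) : ℝ) ∨
      ((u ^ (m * k) : ℕ) : ℝ) ≤ δ * ((v ^ (m * k) : ℕ) : ℝ) := by
  have hv0 : (0 : ℝ) < (v : ℝ) ^ m := by
    have : 0 < v := by omega
    positivity
  rw [Nat.cast_sub (Nat.pow_le_pow_left huv.le m)]
  push_cast
  by_cases h : (1 - δ) * (v : ℝ) ^ m ≤ (u : ℝ) ^ m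
  · left
    linarith
  · right
    rw [not_le] at h
    rw [pow_mul, pow_mul]
    calc ((u : ℝ) ^ m) ^ k ≤ ((1 - δ) * (v : ℝ) ^ m) ^ k := by gcongr
      _ = (1 - δ) ^ k * ((v : ℝ) ^ m) ^ k := mul_pow _ _ _
      _ ≤ δ * ((v : ℝ) ^ m) ^ k := by gcongr

/-- First step: every prime power dividing `N` divides one of the three terms, and the smaller of
the first two terms is small. -/
lemma red_T1 (N : ℕ) (hN : 0 < N) (δ : ℝ) (hδ : 0 < δ) : Red (T1 N δ) Adm := by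
  set δ' : ℝ := min δ (1 / 2) with hδ'
  have hδ'0 : 0 < δ' := lt_min hδ (by norm_num)
  have hδ'1 : δ' < 1 := lt_of_le_of_lt (min_le_right _ _) (by norm_num)
  have hδle : δ' ≤ δ := min_le_left _ _
  obtain ⟨k, hk⟩ := exists_pow_lt_of_lt_one hδ'0 (show 1 - δ' < 1 by linarith)
  have hk' : (1 - δ') ^ (k + 1) ≤ δ' := by
    calc (1 - δ') ^ (k + 1) = (1 - δ') ^ k * (1 - δ') := pow_succ _ _
      _ ≤ (1 - δ') ^ k * 1 := by
          have : 0 < 1 - δ' := by linarith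
          gcongr
          linarith
      _ ≤ δ' := by linarith
  have hφ : 0 < Nat.totient N := Nat.totient_pos.2 hN
  set j₀ : ℕ := N * Nat.totient N with hj₀
  have hj₀0 : 0 < j₀ := by positivity
  set m₀ : ℕ := 2 * (j₀ * (k + 1)) with hm₀
  have hL : (1 : ℝ) ≤ 2 ^ m₀ := one_le_pow₀ (by norm_num)
  refine red_of_map m₀ (2 ^ m₀) hL (fun a b c h => h) ?_
  -- the case `b < a`
  have main : ∀ a b c, Adm a b c → b < a → ∃ m : ℕ, 0 < m ∧ m ≤ m₀ ∧ ∃ A B C : ℕ,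
      T1 N δ A B C ∧ (c : ℝ) ^ m ≤ 2 ^ m₀ * C ∧
        H (A * B * C) ≤ 2 ^ m₀ * (c : ℝ) ^ (m - 1) * H (a * b * c) := by
    intro a b c hadm hba
    have hab := coprime_of_adm hadm
    have hrad := three_le_rad hadm hba.ne'
    have hH0 : 0 < H (a * b * c) := H_pos (by omega)
    obtain ⟨ha, hb, hc, -⟩ := hadm
    obtain ⟨u, v, hu, huv, hcop, hcv, hvc, -, -, h1, h2⟩ := exists_uv hb hba hc hab
    have step : ∀ i : ℕ, 0 < i → i ≤ k + 1 →
        ((v ^ (2 * (j₀ * i)) - u ^ (2 * (j₀ * i)) : ℕ) : ℝ) ≤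
            δ * ((v ^ (2 * (j₀ * i)) : ℕ) : ℝ) ∨
          ((u ^ (2 * (j₀ * i)) : ℕ) : ℝ) ≤ δ * ((v ^ (2 * (j₀ * i)) : ℕ) : ℝ) →
        ∃ m : ℕ, 0 < m ∧ m ≤ m₀ ∧ ∃ A B C : ℕ,
          T1 N δ A B C ∧ (c : ℝ) ^ m ≤ 2 ^ m₀ * C ∧
            H (A * B * C) ≤ 2 ^ m₀ * (c : ℝ) ^ (m - 1) * H (a * b * c) := by
      intro i hi hik harch
      have hji : 0 < j₀ * i := by positivity
      have hmm : 2 * (j₀ * i) ≤ m₀ := Nat.mul_le_mul_left 2 (Nat.mul_le_mul_left j₀ hik)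
      refine ⟨2 * (j₀ * i), by omega, hmm, u ^ (2 * (j₀ * i)),
        v ^ (2 * (j₀ * i)) - u ^ (2 * (j₀ * i)), v ^ (2 * (j₀ * i)), ⟨?_, ?_, ?_⟩, ?_, ?_⟩
      · exact adm_image hu huv hcop (by omega)
      · exact dvd_ABC hN (by omega) ⟨2 * i, by rw [hj₀]; ring⟩ huv.le
      · rcases harch with h | h
        · exact le_trans (by exact_mod_cast min_le_right _ _) h
        · exact le_trans (by exact_mod_cast min_le_left _ _) h
      · have h3 : (c : ℝ) ≤ 2 * v := by exact_mod_cast hcv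
        push_cast
        calc (c : ℝ) ^ (2 * (j₀ * i)) ≤ (2 * (v : ℝ)) ^ (2 * (j₀ * i)) := by gcongr
          _ = 2 ^ (2 * (j₀ * i)) * (v : ℝ) ^ (2 * (j₀ * i)) := mul_pow _ _ _
          _ ≤ 2 ^ m₀ * (v : ℝ) ^ (2 * (j₀ * i)) := by
              gcongr
              norm_num
      · have h4 := H_ABC hu huv hcop hji rfl h1 h2 (by omega)
        have h5 : (v : ℝ) ≤ c := by exact_mod_cast hvc
        have h6 : ((j₀ * i : ℕ) : ℝ) ≤ 2 ^ m₀ := by
          have h7 : j₀ * i ≤ 2 ^ m₀ := by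
            have : m₀ < 2 ^ m₀ := Nat.lt_two_pow_self
            omega
          exact_mod_cast h7
        calc _ ≤ ((j₀ * i : ℕ) : ℝ) * (v : ℝ) ^ (2 * (j₀ * i) - 1) * H (a * b * c) := h4
          _ ≤ 2 ^ m₀ * (c : ℝ) ^ (2 * (j₀ * i) - 1) * H (a * b * c) := by gcongr
    rcases arch (m := 2 * j₀) hu huv hk' with h | h
    · refine step 1 one_pos (by omega) (Or.inl ?_)
      rw [mul_one]
      exact h.trans (by gcongr)
    · refine step (k + 1) (by omega) le_rfl (Or.inr ?_)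
      rw [← mul_assoc]
      exact h.trans (by gcongr)
  intro a b c hadm hab
  rcases lt_or_gt_of_ne hab with h | h
  · obtain ⟨m, hm0, hmm, A, B, C, hT, h1, h2⟩ := main b a c (adm_swap hadm) h
    rw [mul_comm b a] at h2
    exact ⟨m, hm0, hmm, A, B, C, hT, h1, h2⟩
  · exact main a b c hadm h

/-- Second step: the map of degree six. -/
lemma red_T2 (N : ℕ) (δ : ℝ) (hδ : 0 < δ) :
    Red (T2 N δ) (T1 (108 * N) (min δ 1 / 16)) := by
  have hδ1 : 0 < min δ 1 / 16 := by positivity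
  have h16 : 16 * (min δ 1 / 16) ^ 2 ≤ δ := by
    have h1 : min δ 1 ≤ 1 := min_le_right _ _
    have h2 : min δ 1 ≤ δ := min_le_left _ _
    have h3 : 0 < min δ 1 := lt_min hδ one_pos
    nlinarith
  refine red_of_map 6 64 (by norm_num) (fun a b c h => h.1) ?_
  have main : ∀ a b c, T1 (108 * N) (min δ 1 / 16) a b c → b < a → ∃ m : ℕ, 0 < m ∧ m ≤ 6 ∧
      ∃ A B C : ℕ, T2 N δ A B C ∧ (c : ℝ) ^ m ≤ 64 * C ∧
        H (A * B * C) ≤ 64 * (c : ℝ) ^ (m - 1) * H (a * b * c) := by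
    rintro a b c ⟨hadm, hdvd, hmin⟩ hba
    have hrad := three_le_rad hadm hba.ne'
    have hH0 : 0 < H (a * b * c) := H_pos (by omega)
    obtain ⟨A, B, C, hadm', h1, h2, h3, h4⟩ := jmap hadm hba
    refine ⟨6, by norm_num, le_rfl, A, B, C, ⟨hadm', h3 N hdvd, ?_⟩, h1, ?_⟩
    · rw [min_eq_right hba.le] at hmin
      have h5 := h4 _ hδ1.le hmin
      have h6 : (0 : ℝ) ≤ C := Nat.cast_nonneg _
      exact h5.trans (by gcongr)
    · calc H (A * B * C) ≤ 24 * (c : ℝ) ^ 5 * H (a * b * c) := h2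
        _ ≤ 64 * (c : ℝ) ^ (6 - 1) * H (a * b * c) := by
            norm_num
            gcongr
            norm_num
  intro a b c hT hab
  rcases lt_or_gt_of_ne hab with h | h
  · have hT' : T1 (108 * N) (min δ 1 / 16) b a c := by
      obtain ⟨hadm, hdvd, hmin⟩ := hT
      exact ⟨adm_swap hadm, by rwa [mul_comm b a], by rwa [min_comm b a]⟩
    obtain ⟨m, hm0, hmm, A, B, C, hT2, h1, h2⟩ := main b a c hT' h
    rw [mul_comm b a] at h2
    exact ⟨m, hm0, hmm, A, B, C, hT2, h1, h2⟩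
  · exact main a b c hT h

/-- A suitable exponent. -/
lemma exists_exponent (n : ℕ) (hn : 0 < n) (δ : ℝ) (hδ : 0 < δ) :
    ∃ j : ℕ, 0 < j ∧ n ∣ 2 * j ∧ 32 * (j : ℝ) ≤ (2 : ℝ) ^ (((2 * j : ℕ) : ℝ) * δ) := by
  have hr : (1 : ℝ) < (2 : ℝ) ^ (2 * δ) := Real.one_lt_rpow (by norm_num) (by positivity)
  have ht := tendsto_pow_const_div_const_pow_of_one_lt 1 hr
  have hev : ∀ᶠ j : ℕ in atTop, (j : ℝ) ^ 1 / ((2 : ℝ) ^ (2 * δ)) ^ j < 1 / 32 :=
    ht.eventually (gt_mem_nhds (by norm_num))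
  obtain ⟨M, hM⟩ := eventually_atTop.1 hev
  refine ⟨n * (M + 1), by positivity, ⟨2 * (M + 1), by ring⟩, ?_⟩
  have hge : M ≤ n * (M + 1) := by nlinarith
  have h2 := hM _ hge
  set J := n * (M + 1) with hJ
  have h3 : (2 : ℝ) ^ (((2 * J : ℕ) : ℝ) * δ) = ((2 : ℝ) ^ (2 * δ)) ^ J := by
    rw [← Real.rpow_natCast, ← Real.rpow_mul (by norm_num)]
    congr 1
    push_cast
    ring
  rw [h3]
  rw [pow_one, div_lt_iff₀ (by positivity)] at h2
  linarith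

/-- Third step: differences of powers. -/
lemma red_T3 (n N : ℕ) (hn : 0 < n) (δ : ℝ) (hδ : 0 < δ) :
    ∃ δ₂ : ℝ, 0 < δ₂ ∧ Red (Thin n N δ) (T2 N δ₂) := by
  obtain ⟨j, hj, hnj, hj2⟩ := exists_exponent n hn δ hδ
  set m : ℕ := 2 * j with hm
  have hm0 : 0 < m := by omega
  have hmR : (1 : ℝ) ≤ m := by exact_mod_cast hm0
  set δ₂ : ℝ := min δ 1 / (4 * m) with hδ₂
  have hδ₂0 : 0 < δ₂ := by positivity
  have hmδ : 2 * (m : ℝ) * δ₂ ≤ min δ 1 / 2 := by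
    rw [hδ₂]
    apply le_of_eq
    field_simp
    norm_num
  have hδ₂4 : δ₂ ≤ 1 / 4 := by
    have h1 : min δ 1 ≤ 1 := min_le_right _ _
    nlinarith
  refine ⟨δ₂, hδ₂0, ?_⟩
  have hL : (1 : ℝ) ≤ 2 ^ m := one_le_pow₀ (by norm_num)
  refine red_of_map m (2 ^ m) hL (fun a b c h => h.1) ?_
  rintro a b c ⟨hadm, hNb, hbδ⟩ hne
  have hrad := three_le_rad hadm hne
  have hH0 : 0 < H (a * b * c) := H_pos (by omega)
  have hab := coprime_of_adm hadm
  obtain ⟨ha, hb, hc, -⟩ := hadm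
  have hcR : (0 : ℝ) < c := by exact_mod_cast (show 0 < c by omega)
  have hba : b < a := by
    have h1 : (b : ℝ) ≤ 1 / 4 * c := hbδ.trans (by gcongr)
    have h2 : (c : ℝ) = a + b := by rw [← hc]; push_cast; ring
    have h3 : (b : ℝ) < a := by
      have : (0 : ℝ) < a := by exact_mod_cast ha
      linarith
    exact_mod_cast h3
  obtain ⟨u, v, hu, huv, hcop, hcv, hvc, hbdvd, hrel, h1, h2⟩ := exists_uv hb hba hc hab
  have hvR : (0 : ℝ) < v := by exact_mod_cast (show 0 < v by omega)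
  refine ⟨m, hm0, le_rfl, u ^ m, v ^ m - u ^ m, v ^ m, ⟨?_, ?_, ?_, ?_, ?_, ?_⟩, ?_, ?_⟩
  · exact adm_image hu huv hcop hm0.ne'
  · obtain ⟨r, hr⟩ := hnj
    exact ⟨u ^ r, by rw [hr, ← pow_mul, mul_comm]⟩
  · obtain ⟨r, hr⟩ := hnj
    exact ⟨v ^ r, by rw [hr, ← pow_mul, mul_comm]⟩
  · refine (hNb.trans hbdvd).trans ?_
    rw [hm, pow_mul, pow_mul]
    exact Nat.sub_dvd_pow_sub_pow _ _ _
  · -- the archimedean condition
    rw [Nat.cast_sub (Nat.pow_le_pow_left huv.le m)]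
    push_cast
    -- `u / v = 1 - 2 b / c ≥ 1 - 2 δ₂`
    have h3 : (u : ℝ) * c + 2 * (v * b) = v * c := by exact_mod_cast hrel
    have h4 : (1 - 2 * δ₂) * (v : ℝ) ≤ u := by
      have h5 : ((1 - 2 * δ₂) * (v : ℝ)) * c ≤ u * c := by
        have h6 : (v : ℝ) * b ≤ v * (δ₂ * c) := by gcongr
        nlinarith
      exact le_of_mul_le_mul_right h5 hcR
    have h7 : 0 ≤ 1 - 2 * δ₂ := by linarith
    have h8 : (1 - 2 * δ₂) ^ m * (v : ℝ) ^ m ≤ (u : ℝ) ^ m := by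
      rw [← mul_pow]
      gcongr
    have h9 : 1 + (m : ℝ) * (-(2 * δ₂)) ≤ (1 + -(2 * δ₂)) ^ m :=
      one_add_mul_le_pow (by linarith) m
    have h10 : 1 - min δ 1 / 2 ≤ (1 - 2 * δ₂) ^ m := by
      calc 1 - min δ 1 / 2 ≤ 1 + (m : ℝ) * (-(2 * δ₂)) := by nlinarith
        _ ≤ (1 + -(2 * δ₂)) ^ m := h9
        _ = (1 - 2 * δ₂) ^ m := by ring
    have h11 : min δ 1 ≤ δ := min_le_left _ _
    have h12 : 0 < (v : ℝ) ^ m := by positivity
    have h13 : (1 - min δ 1 / 2) * (v : ℝ) ^ m ≤ (u : ℝ) ^ m :=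
      le_trans (by gcongr) h8
    nlinarith
  · exact rad_bound hu huv hj hm hj2 ha hb hc hcv h1
  · have h3 : (c : ℝ) ≤ 2 * v := by exact_mod_cast hcv
    push_cast
    calc (c : ℝ) ^ m ≤ (2 * (v : ℝ)) ^ m := by gcongr
      _ = 2 ^ m * (v : ℝ) ^ m := mul_pow _ _ _
  · have h4 := H_ABC hu huv hcop hj hm h1 h2 (by omega)
    have h5 : (v : ℝ) ≤ c := by exact_mod_cast hvc
    have h6 : (j : ℝ) ≤ 2 ^ m := by
      have h7 : j ≤ 2 ^ m := by
        have : m < 2 ^ m := Nat.lt_two_pow_self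
        omega
      exact_mod_cast h7
    calc _ ≤ (j : ℝ) * (v : ℝ) ^ (m - 1) * H (a * b * c) := h4
      _ ≤ 2 ^ m * (c : ℝ) ^ (m - 1) * H (a * b * c) := by gcongr

/-- The reduction. -/
lemma reduction (n N : ℕ) (hn : 0 < n) (hN : 0 < N) (δ : ℝ) (hδ : 0 < δ) :
    Red (Thin n N δ) Adm := by
  obtain ⟨δ₂, hδ₂, h3⟩ := red_T3 n N hn δ hδ
  exact h3.trans ((red_T2 N δ₂ hδ₂).trans (red_T1 (108 * N) (by positivity) _ (by positivity)))

/-- Monotonicity in the exponent. -/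
lemma Ineq.mono {P : ℕ → ℕ → ℕ → Prop} (hP : ∀ a b c, P a b c → Adm a b c) {e e' : ℝ}
    (he : 0 < e) (hee : e ≤ e') (h : Ineq P e) : Ineq P e' := by
  obtain ⟨C, hC⟩ := h
  set K : ℝ := max C 1 with hK
  have hK1 : 1 ≤ K := le_max_right _ _
  refine ⟨K * K ^ (1 + e'), fun a b c habc => ?_⟩
  have h1 := hC a b c habc
  obtain ⟨ha, hb, hc, -⟩ := hP a b c habc
  have hc1 : (1 : ℝ) ≤ c := by exact_mod_cast (show 1 ≤ c by omega)
  have hH := H_nonneg (a * b * c)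
  have h2 : (c : ℝ) < K * H (a * b * c) ^ (1 + e) := by
    have h3 : 0 ≤ H (a * b * c) ^ (1 + e) := Real.rpow_nonneg hH _
    calc (c : ℝ) < C * H (a * b * c) ^ (1 + e) := h1
      _ ≤ K * H (a * b * c) ^ (1 + e) := by
          gcongr
          exact le_max_left _ _
  have h4 : 1 ≤ K * H (a * b * c) := by
    by_contra hcon
    rw [not_le] at hcon
    have h5 : K * H (a * b * c) ^ (1 + e) ≤ (K * H (a * b * c)) ^ (1 + e) := by
      rw [Real.mul_rpow (by positivity) hH]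
      have h6 : K ≤ K ^ (1 + e) := by
        conv_lhs => rw [← Real.rpow_one K]
        exact Real.rpow_le_rpow_of_exponent_le hK1 (by linarith)
      gcongr
    have h7 : (K * H (a * b * c)) ^ (1 + e) ≤ 1 :=
      Real.rpow_le_one (by positivity) hcon.le (by linarith)
    linarith
  calc (c : ℝ) < K * H (a * b * c) ^ (1 + e) := h2
    _ ≤ K * (K * H (a * b * c)) ^ (1 + e) := by
        have h8 : H (a * b * c) ≤ K * H (a * b * c) := by nlinarith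
        gcongr
    _ ≤ K * (K * H (a * b * c)) ^ (1 + e') := by
        gcongr
    _ = K * K ^ (1 + e') * H (a * b * c) ^ (1 + e') := by
        rw [Real.mul_rpow (by positivity) hH]
        ring

/-- **Main theorem.** -/
theorem main (n N : ℕ) (hn : 0 < n) (hN : 0 < N) (δ : ℝ) (hδ : 0 < δ) :
    (∀ X : ℕ, {t : ℕ × ℕ × ℕ | Thin n N δ t.1 t.2.1 t.2.2 ∧ t.2.2 ≤ X}.ncard ^ n ≤ X ^ 2) ∧
    (∃ m : ℕ, 0 < m ∧ ∀ e : ℝ, 0 < e → e ≤ 1 →
      (∃ C : ℝ, ∀ a b c : ℕ, Thin n N δ a b c → (c : ℝ) < C * H (a * b * c) ^ (1 + e / m)) →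
      ∃ C : ℝ, ∀ a b c : ℕ, Adm a b c → (c : ℝ) < C * H (a * b * c) ^ (1 + e)) ∧
    ((∀ e : ℝ, 0 < e → ∃ C : ℝ, ∀ a b c : ℕ, Thin n N δ a b c →
      (c : ℝ) < C * H (a * b * c) ^ (1 + e)) ↔
      ∀ e : ℝ, 0 < e → ∃ C : ℝ, ∀ a b c : ℕ, Adm a b c →
        (c : ℝ) < C * H (a * b * c) ^ (1 + e)) := by
  refine ⟨count n N hn δ, reduction n N hn hN δ hδ, ?_, ?_⟩
  · intro h e he
    obtain ⟨m, hm, himp⟩ := reduction n N hn hN δ hδ
    have hmin : 0 < min e 1 := lt_min he one_pos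
    exact Ineq.mono (P := Adm) (fun a b c h => h) hmin (min_le_left _ _)
      (himp _ hmin (min_le_right _ _) (h _ (by positivity)))
  · intro h e he
    obtain ⟨C, hC⟩ := h e he
    exact ⟨C, fun a b c hT => hC a b c hT.1⟩

end Pool.Agent.helper69.AT
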