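import Pool.Agent.helper69.AT.Basic

/-!
# Reduction of the inequality with `H` to a thin set of triples: the reduction
-/

namespace Pool.Agent.helper69.AT

open Finset

/-- The number of triples of the thin set. -/
lemma count (n N : ℕ) (hn : 0 < n) (δ : ℝ) (X : ℕ) :
    {t : ℕ × ℕ × ℕ | Thin n N δ t.1 t.2.1 t.2.2 ∧ t.2.2 ≤ X}.ncard ^ n ≤ X ^ 2 := by
  set Y := Nat.findGreatest (fun y => y ^ n ≤ X) X with hY
  have hYX : Y ^ n ≤ X := by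
    have : (0 : ℕ) ^ n ≤ X := by rw [zero_pow hn.ne']; exact Nat.zero_le _
    exact Nat.findGreatest_spec (P := fun y => y ^ n ≤ X) (Nat.zero_le X) this
  have hle : ∀ y, y ^ n ≤ X → y ≤ Y := fun y hy =>
    Nat.le_findGreatest ((Nat.le_self_pow hn.ne' y).trans hy) hy
  have hsub : {t : ℕ × ℕ × ℕ | Thin n N δ t.1 t.2.1 t.2.2 ∧ t.2.2 ≤ X} ⊆
      (((Icc 1 Y ×ˢ Icc 1 Y).image fun z : ℕ × ℕ => (z.1 ^ n, z.2 ^ n - z.1 ^ n, z.2 ^ n) :
        Finset (ℕ × ℕ × ℕ)) : Set (ℕ × ℕ × ℕ)) := by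
    rintro ⟨a, b, c⟩ ⟨⟨⟨ha, hb, hc, -⟩, ⟨x, hx⟩, ⟨y, hy⟩, -⟩, hX⟩
    simp only at ha hb hc hx hy hX
    rw [Finset.mem_coe, Finset.mem_image]
    refine ⟨(x, y), ?_, ?_⟩
    · rw [Finset.mem_product, Finset.mem_Icc, Finset.mem_Icc]
      have hx0 : x ≠ 0 := by
        rintro rfl
        rw [zero_pow hn.ne'] at hx
        omega
      have hy0 : y ≠ 0 := by
        rintro rfl
        rw [zero_pow hn.ne'] at hy
        omega
      exact ⟨⟨Nat.one_le_iff_ne_zero.2 hx0, hle x (by omega)⟩,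
        ⟨Nat.one_le_iff_ne_zero.2 hy0, hle y (by omega)⟩⟩
    · simp only [Prod.mk.injEq]
      exact ⟨hx.symm, by omega, hy.symm⟩
  have hcard : {t : ℕ × ℕ × ℕ | Thin n N δ t.1 t.2.1 t.2.2 ∧ t.2.2 ≤ X}.ncard ≤ Y * Y := by
    refine (Set.ncard_le_ncard hsub (Finset.finite_toSet _)).trans ?_
    rw [Set.ncard_coe_finset]
    refine Finset.card_image_le.trans ?_
    rw [Finset.card_product, Nat.card_Icc]
    simp
  calc _ ≤ (Y * Y) ^ n := Nat.pow_le_pow_left hcard n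
    _ = (Y ^ n) ^ 2 := by rw [mul_pow]; ring
    _ ≤ X ^ 2 := Nat.pow_le_pow_left hYX 2

/-- The image triple satisfies the bound for the radical. -/
lemma rad_bound {a b c u v m j : ℕ} {δ : ℝ} (hu : 0 < u) (huv : u < v) (hj : 0 < j)
    (hm : m = 2 * j) (hj2 : 32 * (j : ℝ) ≤ (2 : ℝ) ^ (m * δ)) (ha : 0 < a) (hb : 0 < b)
    (hc : a + b = c) (hcv : c ≤ 2 * v)
    (h1 : (v * (v ^ 2 - u ^ 2)).primeFactors ⊆ (a * b * c).primeFactors) :
    (rad (u ^ m * (v ^ m - u ^ m) * v ^ m) : ℝ) ≤ ((v ^ m : ℕ) : ℝ) ^ (1 + δ) := by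
  have hv2 : 2 ≤ v := by omega
  have hm0 : 0 < m := by omega
  have h2 : rad (v * (v ^ 2 - u ^ 2)) ≤ 8 * v ^ 3 := by
    have ha' : a ≤ 2 * v := by omega
    have hb' : b ≤ 2 * v := by omega
    have hc0 : c ≠ 0 := by omega
    calc rad (v * (v ^ 2 - u ^ 2)) ≤ rad (a * b * c) := rad_mono h1
      _ ≤ a * b * c := rad_le (by positivity)
      _ ≤ (2 * v) * (2 * v) * (2 * v) := by gcongr
      _ = 8 * v ^ 3 := by ring
  have h3 : rad (u ^ m * (v ^ m - u ^ m) * v ^ m) ≤ 8 * j * v ^ 2 * v ^ m := by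
    calc _ ≤ j * rad (v * (v ^ 2 - u ^ 2)) * v ^ (m - 1) := rad_ABC hu huv hj hm
      _ ≤ j * (8 * v ^ 3) * v ^ (m - 1) := by gcongr
      _ = 8 * j * v ^ 2 * (v ^ (m - 1) * v) := by ring
      _ = 8 * j * v ^ 2 * v ^ m := by
          rw [← pow_succ]
          congr 2
          omega
  have hvR : (2 : ℝ) ≤ (v : ℝ) := by exact_mod_cast hv2
  have hv0 : (0 : ℝ) < (v : ℝ) := by linarith
  have hmδ : (2 : ℝ) ≤ m * δ := by
    by_contra hcon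
    rw [not_le] at hcon
    have h4 : (2 : ℝ) ^ ((m : ℝ) * δ) ≤ (2 : ℝ) ^ (2 : ℝ) :=
      Real.rpow_le_rpow_of_exponent_le (by norm_num) hcon.le
    have h5 : (1 : ℝ) ≤ j := by exact_mod_cast hj
    norm_num at h4
    linarith
  have h6 : 8 * (j : ℝ) * (v : ℝ) ^ 2 ≤ (v : ℝ) ^ ((m : ℝ) * δ) := by
    have e1 : (v : ℝ) ^ ((m : ℝ) * δ) = (v : ℝ) ^ 2 * (v : ℝ) ^ ((m : ℝ) * δ - 2) := by
      rw [← Real.rpow_natCast (v : ℝ) 2, ← Real.rpow_add hv0]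
      congr 1
      push_cast
      ring
    have e2 : (2 : ℝ) ^ ((m : ℝ) * δ) = 4 * (2 : ℝ) ^ ((m : ℝ) * δ - 2) := by
      rw [show (4 : ℝ) = (2 : ℝ) ^ (2 : ℝ) by norm_num, ← Real.rpow_add (by norm_num)]
      congr 1
      ring
    have e3 : (2 : ℝ) ^ ((m : ℝ) * δ - 2) ≤ (v : ℝ) ^ ((m : ℝ) * δ - 2) :=
      Real.rpow_le_rpow (by norm_num) hvR (by linarith)
    have e4 : 8 * (j : ℝ) ≤ (v : ℝ) ^ ((m : ℝ) * δ - 2) := by linarith
    rw [e1]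
    nlinarith [sq_nonneg (v : ℝ)]
  have h7 : ((v ^ m : ℕ) : ℝ) ^ (1 + δ) = (v : ℝ) ^ ((m : ℝ) * δ) * (v : ℝ) ^ m := by
    push_cast
    rw [← Real.rpow_natCast (v : ℝ) m, ← Real.rpow_mul hv0.le, ← Real.rpow_add hv0]
    congr 1
    ring
  rw [h7]
  calc (rad (u ^ m * (v ^ m - u ^ m) * v ^ m) : ℝ)
      ≤ ((8 * j * v ^ 2 * v ^ m : ℕ) : ℝ) := by exact_mod_cast h3
    _ = 8 * (j : ℝ) * (v : ℝ) ^ 2 * (v : ℝ) ^ m := by push_cast; ring
    _ ≤ (v : ℝ) ^ ((m : ℝ) * δ) * (v : ℝ) ^ m := by gcongr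

/-- The exponents. -/
lemma exponent_step {v h K j e e₀ : ℝ} {m : ℕ} (hv : 1 ≤ v) (hh : 0 < h) (hK : 1 ≤ K) (hj : 1 ≤ j)
    (hm : 0 < m) (he : 0 < e) (he₀ : 0 < e₀) (hee : e * (1 + ((m : ℝ) - 1) * (1 + e₀)) ≤ e₀)
    {P : ℝ} (hP0 : 0 ≤ P) (hP : P ≤ j * v ^ (m - 1) * h) (hin : v ^ m < K * P ^ (1 + e)) :
    v ≤ (K * j) ^ (1 + e₀) * h ^ (1 + e₀) := by
  have hv0 : 0 < v := by linarith
  have hm1 : ((m - 1 : ℕ) : ℝ) = (m : ℝ) - 1 := by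
    rw [Nat.cast_sub (by omega)]
    simp
  have hmR : (1 : ℝ) ≤ m := by exact_mod_cast hm
  have hX0 : 0 < K * j * h := by positivity
  -- `v ^ m ≤ (K j h v ^ (m-1)) ^ (1 + e)`
  have h1 : v ^ m ≤ (K * j * h) ^ (1 + e) * v ^ (((m : ℝ) - 1) * (1 + e)) := by
    have a1 : P ^ (1 + e) ≤ (j * v ^ (m - 1) * h) ^ (1 + e) :=
      Real.rpow_le_rpow hP0 hP (by linarith)
    have a2 : (j * v ^ (m - 1) * h) ^ (1 + e) = (j * h) ^ (1 + e) * v ^ (((m : ℝ) - 1) * (1 + e)) := by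
      rw [show j * v ^ (m - 1) * h = (j * h) * v ^ (m - 1) by ring,
        Real.mul_rpow (by positivity) (by positivity), ← Real.rpow_natCast v (m - 1),
        ← Real.rpow_mul hv0.le, hm1]
    have a3 : K ≤ K ^ (1 + e) := by
      conv_lhs => rw [← Real.rpow_one K]
      exact Real.rpow_le_rpow_of_exponent_le hK (by linarith)
    have a4 : (K * j * h) ^ (1 + e) = K ^ (1 + e) * (j * h) ^ (1 + e) := by
      rw [mul_assoc, Real.mul_rpow (by positivity) (by positivity)]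
    rw [a4]
    calc v ^ m ≤ K * P ^ (1 + e) := hin.le
      _ ≤ K ^ (1 + e) * ((j * h) ^ (1 + e) * v ^ (((m : ℝ) - 1) * (1 + e))) := by
          rw [← a2]
          gcongr
      _ = _ := by ring
  -- divide
  have h2 : v ^ (1 - ((m : ℝ) - 1) * e) ≤ (K * j * h) ^ (1 + e) := by
    have b1 : v ^ m = v ^ (1 - ((m : ℝ) - 1) * e) * v ^ (((m : ℝ) - 1) * (1 + e)) := by
      rw [← Real.rpow_add hv0, ← Real.rpow_natCast v m]
      congr 1
      ring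
    rw [b1] at h1
    exact le_of_mul_le_mul_right h1 (by positivity)
  have h3 : (v ^ (1 - ((m : ℝ) - 1) * e)) ^ ((1 + e₀) / (1 + e)) ≤
      ((K * j * h) ^ (1 + e)) ^ ((1 + e₀) / (1 + e)) :=
    Real.rpow_le_rpow (by positivity) h2 (by positivity)
  rw [← Real.rpow_mul hv0.le, ← Real.rpow_mul hX0.le, mul_div_cancel₀ _ (by positivity)] at h3
  have h4 : v ≤ v ^ ((1 - ((m : ℝ) - 1) * e) * ((1 + e₀) / (1 + e))) := by
    conv_lhs => rw [← Real.rpow_one v]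
    apply Real.rpow_le_rpow_of_exponent_le hv
    rw [← mul_div_assoc, le_div_iff₀ (by positivity)]
    nlinarith
  calc v ≤ (K * j * h) ^ (1 + e₀) := h4.trans h3
    _ = (K * j) ^ (1 + e₀) * h ^ (1 + e₀) := Real.mul_rpow (by positivity) hh.le

end Pool.Agent.helper69.AT
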